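import Pool.Agent.Helper27.Mess.Defs
import Pool.Agent.Helper28.Mess.NullHomotopy

/-! # MS-3: existence of a system of higher homotopies -/

set_option autoImplicit false

namespace Pool.Agent.Helper27.Mess

open Finset
open scoped IsMulCommutative

universe u v w

variable {Γ : Type u} [Group Γ] {C : Type v} [AddCommGroup C] [Module (MonoidAlgebra ℤ Γ) C]

/-- The action of a central element, as a linear map. -/
noncomputable def ms3_actL (a : Subgroup.center Γ) : C →ₗ[MonoidAlgebra ℤ Γ] C where
  toFun x := act (a : Γ) x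
  map_add' x y := act_add _ _ _
  map_smul' s x := by
    simp only [RingHom.id_apply]
    rw [smul_eq_sum s x, act_sum, smul_eq_sum s (act (a : Γ) x)]
    refine Finset.sum_congr rfl fun g _ => ?_
    rw [act_zsmul, act_comm_of_center]

theorem ms3_actL_apply (a : Subgroup.center Γ) (x : C) : ms3_actL a x = act (a : Γ) x := rfl

/-- The right hand side of the relation, as a linear map. -/
noncomputable def ms3_X {r : ℕ} (a : Fin r → Subgroup.center Γ) (k : Fin r →₀ ℕ) :
    C →ₗ[MonoidAlgebra ℤ Γ] C :=
  ∑ j, if k = Finsupp.single j 1 then ms3_actL (a j) - LinearMap.id else 0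

theorem ms3_X_apply {r : ℕ} (a : Fin r → Subgroup.center Γ) (k : Fin r →₀ ℕ) (x : C) :
    ms3_X a k x = ∑ j, if k = Finsupp.single j 1 then act (a j : Γ) x - x else 0 := by
  rw [ms3_X, LinearMap.sum_apply]
  refine Finset.sum_congr rfl fun j _ => ?_
  split_ifs with h
  · rfl
  · rfl

theorem ms3_X_comm {r : ℕ} (a : Fin r → Subgroup.center Γ) (k : Fin r →₀ ℕ)
    (f : C →ₗ[MonoidAlgebra ℤ Γ] C) (x : C) : f (ms3_X a k x) = ms3_X a k (f x) := by
  rw [ms3_X_apply, ms3_X_apply, map_sum]
  refine Finset.sum_congr rfl fun j _ => ?_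
  split_ifs with h
  · rw [map_sub, map_act]
  · rw [map_zero]

theorem ms3_X_eq_zero {r : ℕ} (a : Fin r → Subgroup.center Γ) (k : Fin r →₀ ℕ)
    (hk : k.degree ≠ 1) (x : C) : ms3_X a k x = 0 := by
  rw [ms3_X_apply]
  refine Finset.sum_eq_zero fun j _ => ?_
  rw [if_neg]
  rintro rfl
  exact hk (Finsupp.degree_single _ _)

/-- Triple products. -/
theorem ms3_assoc {r : ℕ} (h : (Fin r →₀ ℕ) → Module.End (MonoidAlgebra ℤ Γ) C) (k : Fin r →₀ ℕ) :
    ∑ p ∈ antidiagonal k, (∑ q ∈ antidiagonal p.1, h q.1 * h q.2) * h p.2 =
      ∑ p ∈ antidiagonal k, h p.1 * (∑ q ∈ antidiagonal p.2, h q.1 * h q.2) := by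
  classical
  have key : ∀ φ : MvPowerSeries (Fin r) (Module.End (MonoidAlgebra ℤ Γ) C),
      ∑ p ∈ antidiagonal k, (∑ q ∈ antidiagonal p.1,
        MvPowerSeries.coeff q.1 φ * MvPowerSeries.coeff q.2 φ) * MvPowerSeries.coeff p.2 φ =
      ∑ p ∈ antidiagonal k, MvPowerSeries.coeff p.1 φ * (∑ q ∈ antidiagonal p.2,
        MvPowerSeries.coeff q.1 φ * MvPowerSeries.coeff q.2 φ) := by
    intro φ
    have H := congrArg (MvPowerSeries.coeff k) (mul_assoc φ φ φ)
    rw [MvPowerSeries.coeff_mul, MvPowerSeries.coeff_mul] at H
    simp only [MvPowerSeries.coeff_mul] at H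
    exact H
  exact key h

/-- The inductive statement. -/
def ms3_P (G : GrRes Γ C) {r : ℕ} (a : Fin r → Subgroup.center Γ) (K : ℕ)
    (h : (Fin r →₀ ℕ) → (C →ₗ[MonoidAlgebra ℤ Γ] C)) : Prop :=
  (∀ k i x, h k (G.π i x) = G.π (i + 2 * (k.degree : ℤ) - 1) (h k x)) ∧
  h 0 = G.d ∧
  (∀ k, K < k.degree → h k = 0) ∧
  ∀ k, k.degree ≤ K → ∀ x, ∑ p ∈ antidiagonal k, h p.1 (h p.2 x) = ms3_X a k x

theorem ms3_zero (G : GrRes Γ C) {r : ℕ} (a : Fin r → Subgroup.center Γ) :
    ∃ h, ms3_P G a 0 h := by
  classical
  refine ⟨fun k => if k = 0 then G.d else 0, ?_, ?_, ?_, ?_⟩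
  · intro k i x
    by_cases hk : k = 0
    · subst hk
      simp [G.d_π]
    · simp [hk]
  · simp
  · intro k hk
    have : k ≠ 0 := by
      rintro rfl
      simp at hk
    simp [this]
  · intro k hk x
    have hk0 : k = 0 := by
      rw [← Finsupp.degree_eq_zero_iff]
      omega
    subst hk0
    rw [ms3_X_eq_zero _ _ (by simp)]
    simp [ms2_dd]

theorem ms3_step [Module.Projective (MonoidAlgebra ℤ Γ) C] (G : GrRes Γ C) {r : ℕ}
    (a : Fin r → Subgroup.center Γ) (K : ℕ) (h : (Fin r →₀ ℕ) → (C →ₗ[MonoidAlgebra ℤ Γ] C))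
    (hP : ms3_P G a K h) : ∃ h', ms3_P G a (K + 1) h' := by
  classical
  obtain ⟨hdeg, h0, hbig, hrel⟩ := hP
  set HH : (Fin r →₀ ℕ) → Module.End (MonoidAlgebra ℤ Γ) C :=
    fun k => ∑ p ∈ antidiagonal k, (h p.1 : Module.End (MonoidAlgebra ℤ Γ) C) * h p.2 with hHH
  have hHHa : ∀ k x, HH k x = ∑ p ∈ antidiagonal k, h p.1 (h p.2 x) := by
    intro k x
    rw [hHH]
    simp only [LinearMap.sum_apply]
    rfl
  have hHHle : ∀ k, k.degree ≤ K → ∀ x, HH k x = ms3_X a k x := by
    intro k hk x
    rw [hHHa, hrel k hk]
  -- the obstruction commutes with the differential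
  have hcomm : ∀ k : Fin r →₀ ℕ, k.degree = K + 1 → ∀ x,
      G.d (ms3_X a k x - HH k x) = ms3_X a k (G.d x) - HH k (G.d x) := by
    intro k hk x
    have hA := congrArg (fun f : Module.End (MonoidAlgebra ℤ Γ) C => f x)
      (ms3_assoc (C := C) (Γ := Γ) h k)
    simp only [LinearMap.sum_apply] at hA
    have hL : ∑ p ∈ antidiagonal k, (HH p.1 (h p.2 x) - ms3_X a p.1 (h p.2 x)) =
        HH k (G.d x) - ms3_X a k (G.d x) := by
      rw [Finset.sum_eq_single (k, 0)]
      · rw [h0]
      · rintro ⟨p, q⟩ hp hne
        rw [HasAntidiagonal.mem_antidiagonal] at hp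
        simp only at hp hne ⊢
        rw [hHHle p, sub_self]
        have h1 : p.degree + q.degree = k.degree := by
          rw [← hp, map_add]
        have h2 : q.degree ≠ 0 := by
          intro h3
          rw [Finsupp.degree_eq_zero_iff] at h3
          subst h3
          simp only [add_zero] at hp
          exact hne (by rw [hp])
        omega
      · intro hn
        exact absurd (by rw [HasAntidiagonal.mem_antidiagonal]; simp) hn
    have hR : ∑ p ∈ antidiagonal k, (h p.1 (HH p.2 x) - h p.1 (ms3_X a p.2 x)) =
        G.d (HH k x) - G.d (ms3_X a k x) := by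
      rw [Finset.sum_eq_single (0, k)]
      · rw [h0]
      · rintro ⟨p, q⟩ hp hne
        rw [HasAntidiagonal.mem_antidiagonal] at hp
        simp only at hp hne ⊢
        rw [hHHle q, sub_self]
        have h1 : p.degree + q.degree = k.degree := by
          rw [← hp, map_add]
        have h2 : p.degree ≠ 0 := by
          intro h3
          rw [Finsupp.degree_eq_zero_iff] at h3
          subst h3
          simp only [zero_add] at hp
          exact hne (by rw [hp])
        omega
      · intro hn
        exact absurd (by rw [HasAntidiagonal.mem_antidiagonal]; simp) hn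
    have hA' : ∑ p ∈ antidiagonal k, HH p.1 (h p.2 x) =
        ∑ p ∈ antidiagonal k, h p.1 (HH p.2 x) := hA
    have hswap : ∑ p ∈ antidiagonal k, ms3_X a p.1 (h p.2 x) =
        ∑ p ∈ antidiagonal k, h p.1 (ms3_X a p.2 x) := by
      rw [Finsupp.sum_antidiagonal_swap k (fun p q => h p (ms3_X a q x))]
      refine Finset.sum_congr rfl fun p _ => ?_
      rw [ms3_X_comm]
    rw [Finset.sum_sub_distrib] at hL hR
    rw [hA', hswap] at hL
    rw [hL] at hR
    rw [map_sub, ← neg_sub, ← neg_sub (HH k (G.d x))]
    rw [← hR]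
  have hex : ∀ k : Fin r →₀ ℕ, k.degree = K + 1 → ∃ g : C →ₗ[MonoidAlgebra ℤ Γ] C,
      (∀ (i : ℤ) (x : C), g (G.π i x) = G.π (i + (2 * K : ℕ) + 1) (g x)) ∧
      ∀ x, G.d (g x) + g (G.d x) =
        (ms3_X a k - (HH k : C →ₗ[MonoidAlgebra ℤ Γ] C) : C →ₗ[MonoidAlgebra ℤ Γ] C) x := by
    intro k hk
    apply null_homotopy G (2 * K)
    · intro i x
      simp only [LinearMap.sub_apply]
      rw [map_sub]
      congr 1
      · by_cases hK : K = 0
        · subst hK
          rw [← ms3_X_comm]
          simp
        · rw [ms3_X_eq_zero a k (by omega), ms3_X_eq_zero a k (by omega), map_zero]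
      · rw [hHHa, hHHa, map_sum]
        refine Finset.sum_congr rfl fun p hp => ?_
        rw [HasAntidiagonal.mem_antidiagonal] at hp
        have h1 : p.1.degree + p.2.degree = k.degree := by
          rw [← hp, map_add]
        rw [hdeg, hdeg]
        congr 2
        push_cast
        omega
    · intro x
      exact hcomm k hk x
    · intro hq x
      have hK : K = 0 := by omega
      subst hK
      have h1 : HH k x = 0 := by
        rw [hHHa]
        refine Finset.sum_eq_zero fun p hp => ?_
        rw [HasAntidiagonal.mem_antidiagonal] at hp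
        have h1 : p.1.degree + p.2.degree = k.degree := by
          rw [← hp, map_add]
        by_cases h2 : 0 < p.1.degree
        · rw [hbig p.1 h2, LinearMap.zero_apply]
        · rw [hbig p.2 (by omega), LinearMap.zero_apply, map_zero]
      rw [LinearMap.sub_apply, h1, sub_zero, ms3_X_apply, map_sum]
      refine Finset.sum_eq_zero fun j _ => ?_
      split_ifs with h
      · rw [map_sub, G.ε_act, sub_self]
      · rw [map_zero]
  choose! g hg1 hg2 using hex
  refine ⟨fun k => if k.degree = K + 1 then g k else h k, ?_, ?_, ?_, ?_⟩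
  · intro k i x
    by_cases hk : k.degree = K + 1
    · simp only [hk, if_true]
      rw [hg1 k hk]
      congr 2
      push_cast
      ring
    · simp only [hk, if_false]
      exact hdeg k i x
  · beta_reduce
    rw [if_neg]
    · exact h0
    · rw [map_zero]
      omega
  · intro k hk
    beta_reduce
    rw [if_neg (by omega)]
    exact hbig k (by omega)
  · intro k hk x
    beta_reduce
    rcases Nat.lt_or_ge k.degree (K + 1) with hlt | hge
    · rw [← hrel k (by omega)]
      refine Finset.sum_congr rfl fun p hp => ?_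
      rw [HasAntidiagonal.mem_antidiagonal] at hp
      have h1 : p.1.degree + p.2.degree = k.degree := by
        rw [← hp, map_add]
      rw [if_neg (by omega), if_neg (by omega)]
    · have hkK : k.degree = K + 1 := by omega
      have key : ∀ p ∈ antidiagonal k,
          (if p.1.degree = K + 1 then g p.1 else h p.1)
            ((if p.2.degree = K + 1 then g p.2 else h p.2) x) =
          h p.1 (h p.2 x) + ((if p = (0, k) then G.d (g k x) else 0) +
            (if p = (k, 0) then g k (G.d x) else 0)) := by
        rintro ⟨p, q⟩ hp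
        rw [HasAntidiagonal.mem_antidiagonal] at hp
        simp only at hp ⊢
        have h1 : p.degree + q.degree = k.degree := by
          rw [← hp, map_add]
        have hk0 : k ≠ 0 := by
          rintro rfl
          simp at hkK
        by_cases hp1 : p.degree = K + 1
        · have hq0 : q = 0 := by
            rw [← Finsupp.degree_eq_zero_iff]
            omega
          have hpk : p = k := by
            rw [← hp, hq0, add_zero]
          subst hq0
          subst hpk
          have e1 : ¬ ((0 : Fin r →₀ ℕ).degree = K + 1) := by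
            rw [map_zero]; omega
          have e2 : ¬ ((p, (0 : Fin r →₀ ℕ)) = (0, p)) := by
            intro h3
            exact hk0 (Prod.ext_iff.1 h3).1
          rw [if_pos hp1, if_neg e1, if_neg e2, if_pos rfl, h0, hbig p (by omega)]
          simp
        · by_cases hq1 : q.degree = K + 1
          · have hp0 : p = 0 := by
              rw [← Finsupp.degree_eq_zero_iff]
              omega
            have hqk : q = k := by
              rw [← hp, hp0, zero_add]
            subst hp0
            subst hqk
            have e2 : ¬ (((0 : Fin r →₀ ℕ), q) = (q, 0)) := by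
              intro h3
              exact hk0 (Prod.ext_iff.1 h3).2
            rw [if_neg hp1, if_pos hq1, if_pos rfl, if_neg e2, h0, hbig q (by omega)]
            simp
          · have e1 : ¬ ((p, q) = (0, k)) := by
              intro h3
              apply hq1
              have h4 : q = k := (Prod.ext_iff.1 h3).2
              rw [h4]
              exact hkK
            have e2 : ¬ ((p, q) = (k, 0)) := by
              intro h3
              apply hp1
              have h4 : p = k := (Prod.ext_iff.1 h3).1
              rw [h4]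
              exact hkK
            rw [if_neg hp1, if_neg hq1, if_neg e1, if_neg e2, add_zero, add_zero]
      rw [Finset.sum_congr rfl key, Finset.sum_add_distrib, Finset.sum_add_distrib,
        Finset.sum_ite_eq', Finset.sum_ite_eq', if_pos, if_pos, hg2 k hkK]
      · rw [LinearMap.sub_apply, hHHa]
        abel
      · rw [HasAntidiagonal.mem_antidiagonal]
        simp
      · rw [HasAntidiagonal.mem_antidiagonal]
        simp

theorem ms3_exists [Module.Projective (MonoidAlgebra ℤ Γ) C] (G : GrRes Γ C) {r : ℕ}
    (a : Fin r → Subgroup.center Γ) (K : ℕ) : ∃ h, ms3_P G a K h := by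
  induction K with
  | zero => exact ms3_zero G a
  | succ K ih =>
    obtain ⟨h, hh⟩ := ih
    exact ms3_step G a K h hh

/-- MS-3: existence of higher homotopies (uses MS-2). -/
theorem exists_dSys [Module.Projective (MonoidAlgebra ℤ Γ) C] (G : GrRes Γ C) {r : ℕ}
    (a : Fin r → Subgroup.center Γ) : Nonempty (DSys G a) := by
  classical
  obtain ⟨h, hdeg, h0, hbig, hrel⟩ := ms3_exists G a (G.n + 1)
  refine ⟨⟨h, (Finsupp.finite_of_degree_le (G.n + 1)).toFinset, ?_, h0, hdeg, ?_⟩⟩
  · intro k hk
    apply hbig
    rw [Set.Finite.mem_toFinset, Set.mem_ofPred_eq] at hk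
    omega
  · intro k x
    rw [← ms3_X_apply]
    rcases Nat.lt_or_ge (G.n + 1) k.degree with hlt | hge
    · rw [ms3_X_eq_zero a k (by omega)]
      refine Finset.sum_eq_zero fun p hp => ?_
      rw [HasAntidiagonal.mem_antidiagonal] at hp
      have h1 : p.1.degree + p.2.degree = k.degree := by
        rw [← hp, map_add]
      rw [← G.π_sum x, map_sum, map_sum]
      refine Finset.sum_eq_zero fun i _ => ?_
      rw [hdeg, hdeg]
      apply G.π_big
      omega
    · exact hrel k hge x

end Pool.Agent.Helper27.Mess
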